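import Mathlib
import Pool.Agent.TH717.GO.UE
import Pool.Agent.TH717.GO.Hyb
import Pool.Agent.W235.RM.Dich

set_option autoImplicit false

/-! # Orbits of one linear map on an affine variety -/

namespace Pool.Agent.Y377.AO

open Polynomial Pool.Agent.TH717.GO Pool.Agent.W235.RM

variable {n : ℕ}

/-- the Laurent curves with at most `R` exponents on the zero set of `FF`, which are not in the zero
set of `GG` at the parameter `1`, are constant -/
def ACond {k : Type} [Field k] (FF GG : Set (MvPolynomial (Fin n) k)) (R : ℕ) : Prop :=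
  ∀ (L : Type) [Field L] [Algebra k L] (p : Fin n → Polynomial L) (B : ℕ) (S : Finset ℕ),
    S.card ≤ R → (∀ i, (p i).support ⊆ S) →
    (∀ F ∈ FF, ∀ s : L, s ≠ 0 → MvPolynomial.aeval (fun i => (p i).eval s / s ^ B) F = 0) →
    (∃ G ∈ GG, MvPolynomial.aeval (fun i => (p i).eval 1) G ≠ 0) →
    ∀ i, p i = X ^ B * C ((p i).eval 1)

theorem aeval_eval' {k L : Type} [Field k] [Field L] [Algebra k L] {m : ℕ}
    (P : Fin m → Polynomial L) (F : MvPolynomial (Fin m) k) (s : L) :
    (MvPolynomial.aeval P F : Polynomial L).eval s =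
      MvPolynomial.aeval (fun i => (P i).eval s) F :=
  MvPolynomial.comp_aeval_apply (R := k) P
    ((Polynomial.aeval s : Polynomial L →ₐ[L] L).restrictScalars k) F

theorem crv_sub_smul {L : Type} [Field L] {ι : Type} (S : Finset ι) (b : ι → ℕ)
    (a a' : ι → Polynomial L) (u : L) :
    crv S b (fun μ => a μ - C u * a' μ) = crv S b a - C u * crv S b a' := by
  unfold crv
  rw [Finset.mul_sum, ← Finset.sum_sub_distrib]
  refine Finset.sum_congr rfl fun μ _ => ?_
  have h3 : dn L (C u) = C u := by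
    show (C u).comp _ = _
    rw [C_comp]
  rw [map_sub, map_mul, h3]
  ring

/-- exponential polynomials on an affine variety whose Laurent curves are constant -/
theorem exp_poly_A {k : Type} [Field k] [CharZero k]
    (FF GG : Set (MvPolynomial (Fin n) k)) (s r : ℕ) (hC : ACond FF GG (s * r)) :
      ∀ (L : Type) [Field L] [Algebra k L] (Λ : Subgroup Lˣ) (S : Finset Λ), S.card ≤ s →
        ∀ (β : Λ →* Multiplicative ℤ), Set.InjOn β (insert (1 : Λ) (S : Set Λ)) →
        ∀ (a : Fin n → Λ → Polynomial L), (∀ i, ∀ μ ∈ S, (a i μ).degree < r) →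
        (∀ F ∈ FF, ∀ m : ℕ, MvPolynomial.aeval
          (fun i => ∑ μ ∈ S, (a i μ).eval (m : L) * ((μ : Lˣ) : L) ^ m) F = 0) →
        (∃ G ∈ GG, MvPolynomial.aeval (fun i => ∑ μ ∈ S, (a i μ).eval 0) G ≠ 0) →
        ∀ (i : Fin n) (m : ℕ), (∑ μ ∈ S, (a i μ).eval (m : L) * ((μ : Lˣ) : L) ^ m) =
          ∑ μ ∈ S, (a i μ).eval 0 := by
  classical
  intro L _ _ Λ S hSs β hβ a ha hF hG i m
  have hchar : CharZero L := charZero_of_injective_algebraMap (FaithfulSMul.algebraMap_injective k L)
  rcases Nat.eq_zero_or_pos r with hr | hr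
  · subst hr
    have h0 : ∀ μ ∈ S, a i μ = 0 := fun μ hμ => by
      have h1 := ha i μ hμ
      by_contra hne
      have h2 := Polynomial.zero_le_degree_iff.2 hne
      exact absurd h1 (not_lt.2 (by simpa using h2))
    rw [Finset.sum_eq_zero (fun μ hμ => by rw [h0 μ hμ]; simp),
      Finset.sum_eq_zero (fun μ hμ => by rw [h0 μ hμ]; simp)]
  let S' : Finset Λ := insert 1 S
  have hβS : Set.InjOn β (S' : Set Λ) := by
    simpa [S'] using hβ
  let β' : Λ →* Multiplicative ℤ := (powMonoidHom r).comp β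
  have hβ' : ∀ μ, Multiplicative.toAdd (β' μ) = r * Multiplicative.toAdd (β μ) := by
    intro μ
    show Multiplicative.toAdd (β μ ^ r) = _
    rw [toAdd_pow]
    simp
  let B : ℕ := ∑ μ ∈ S', (Multiplicative.toAdd (β' μ)).natAbs
  have hB : ∀ μ ∈ S', 0 ≤ Multiplicative.toAdd (β' μ) + (B : ℤ) := by
    intro μ hμ
    have h1 : (Multiplicative.toAdd (β' μ)).natAbs ≤ B :=
      Finset.single_le_sum (f := fun μ => (Multiplicative.toAdd (β' μ)).natAbs)
        (fun _ _ => Nat.zero_le _) hμ
    omega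
  let b : Λ → ℕ := fun μ => (Multiplicative.toAdd (β' μ) + (B : ℤ)).toNat
  have hb1 : b 1 = B := by
    show (Multiplicative.toAdd (β' 1) + (B : ℤ)).toNat = B
    rw [map_one, toAdd_one, zero_add, Int.toNat_natCast]
  have hb : ∀ μ ∈ S', ∀ ν ∈ S', μ ≠ ν → b μ + r ≤ b ν ∨ b ν + r ≤ b μ := by
    intro μ hμ ν hν hne
    have h1 : Multiplicative.toAdd (β μ) ≠ Multiplicative.toAdd (β ν) := fun h =>
      hne (hβS hμ hν (Multiplicative.toAdd.injective h))
    have h2 := Int.toNat_of_nonneg (hB μ hμ)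
    have h3 := Int.toNat_of_nonneg (hB ν hν)
    have h4 : ((b μ : ℕ) : ℤ) = r * Multiplicative.toAdd (β μ) + B := by
      rw [← hβ']; exact h2
    have h5 : ((b ν : ℕ) : ℤ) = r * Multiplicative.toAdd (β ν) + B := by
      rw [← hβ']; exact h3
    rcases lt_or_gt_of_ne h1 with h | h
    · left
      have h6 : (r : ℤ) * (Multiplicative.toAdd (β μ) + 1) ≤ r * Multiplicative.toAdd (β ν) :=
        mul_le_mul_of_nonneg_left (by omega) (by positivity)
      zify
      rw [h4, h5]
      linarith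
    · right
      have h6 : (r : ℤ) * (Multiplicative.toAdd (β ν) + 1) ≤ r * Multiplicative.toAdd (β μ) :=
        mul_le_mul_of_nonneg_left (by omega) (by positivity)
      zify
      rw [h4, h5]
      linarith
  obtain ⟨T, hT1, hT2⟩ := crv_support (L := L) S b r
  let a0 : Λ → Polynomial L := fun μ => if μ = 1 then C 1 else 0
  let a1 : Fin n → Λ → Polynomial L := fun i μ => if μ ∈ S then a i μ else 0
  let a' : Fin (n + 1) → Λ → Polynomial L := Fin.cons a0 a1
  have hcrv0 : crv S' b a0 = X ^ B := by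
    unfold crv
    rw [Finset.sum_eq_single 1]
    · simp only [a0, if_true]
      rw [hb1, map_one, map_one, one_mul]
    · intro μ _ hne
      simp only [a0, if_neg hne]
      rw [map_zero, zero_mul]
    · intro h
      exact absurd (Finset.mem_insert_self _ _) h
  have hcrvs : ∀ i, crv S' b (a1 i) = crv S b (a i) := by
    intro i
    unfold crv
    symm
    have h1 : ∑ μ ∈ S, dn L (a i μ) * X ^ b μ = ∑ μ ∈ S, dn L (a1 i μ) * X ^ b μ :=
      Finset.sum_congr rfl fun μ hμ => by simp only [a1, if_pos hμ]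
    rw [h1]
    refine Finset.sum_subset (Finset.subset_insert _ _) fun μ _ hμ => ?_
    simp only [a1, if_neg hμ]
    rw [map_zero, zero_mul]
  have hsum0 : ∀ m : ℕ, ∑ μ ∈ S', (a0 μ).eval (m : L) * ((μ : Lˣ) : L) ^ m = 1 := by
    intro m
    rw [Finset.sum_eq_single 1]
    · simp [a0]
    · intro μ _ hne
      simp only [a0, if_neg hne]
      rw [eval_zero, zero_mul]
    · intro h
      exact absurd (Finset.mem_insert_self _ _) h
  have hsum1 : ∀ (i : Fin n) (m : ℕ), ∑ μ ∈ S', (a1 i μ).eval (m : L) * ((μ : Lˣ) : L) ^ m =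
      ∑ μ ∈ S, (a i μ).eval (m : L) * ((μ : Lˣ) : L) ^ m := by
    intro i m
    symm
    have h1 : ∑ μ ∈ S, (a i μ).eval (m : L) * ((μ : Lˣ) : L) ^ m =
        ∑ μ ∈ S, (a1 i μ).eval (m : L) * ((μ : Lˣ) : L) ^ m :=
      Finset.sum_congr rfl fun μ hμ => by simp only [a1, if_pos hμ]
    rw [h1]
    refine Finset.sum_subset (Finset.subset_insert _ _) fun μ _ hμ => ?_
    simp only [a1, if_neg hμ]
    rw [eval_zero, zero_mul]
  have hev : ∀ i, (crv S b (a i)).eval 1 = ∑ μ ∈ S, (a i μ).eval 0 := fun i =>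
    crv_eval_one S b (a i)
  -- the equations on the curve
  have hcurve : ∀ F ∈ FF, ∀ s : L, s ≠ 0 →
      MvPolynomial.aeval (fun i => (crv S b (a i)).eval s / s ^ B) F = 0 := by
    intro F hFF s hs
    have h1 := aeval_crv Λ β' B S' hB a' (hmg F.totalDegree F)
      ⟨_, hmg_homog F.totalDegree F le_rfl⟩ (by
        intro m
        have h2 : (fun i => ev Λ (mk Λ S' (a' i)) m) = (Fin.cons (1 : L) (fun i => 1 *
            ∑ μ ∈ S, (a i μ).eval (m : L) * ((μ : Lˣ) : L) ^ m) : Fin (n + 1) → L) := by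
          funext i
          rw [ev_mk]
          refine Fin.cases ?_ (fun i => ?_) i
          · rw [Fin.cons_zero]
            exact hsum0 m
          · rw [Fin.cons_succ, one_mul]
            exact hsum1 i m
        rw [h2, MvPolynomial.aeval_def, hmg_eval _ _ F le_rfl, one_pow, one_mul,
          ← MvPolynomial.aeval_def]
        exact hF F hFF m)
    have h3 := congrArg (fun q : Polynomial L => q.eval s) h1
    simp only [eval_zero] at h3
    rw [aeval_eval'] at h3
    have hsB : s ^ B ≠ 0 := pow_ne_zero _ hs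
    have h4 : (fun i => (crv S' (fun μ => (Multiplicative.toAdd (β' μ) + (B : ℤ)).toNat)
        (a' i)).eval s) = (Fin.cons (s ^ B) (fun i => s ^ B *
          ((crv S b (a i)).eval s / s ^ B)) : Fin (n + 1) → L) := by
      funext i
      refine Fin.cases ?_ (fun i => ?_) i
      · rw [Fin.cons_zero]
        have : crv S' (fun μ => (Multiplicative.toAdd (β' μ) + (B : ℤ)).toNat) (a' 0) = X ^ B :=
          hcrv0
        rw [this, eval_pow, eval_X]
      · rw [Fin.cons_succ, mul_div_cancel₀ _ hsB]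
        have : crv S' (fun μ => (Multiplicative.toAdd (β' μ) + (B : ℤ)).toNat) (a' i.succ) =
          crv S b (a i) := hcrvs i
        rw [this]
    rw [h4, MvPolynomial.aeval_def, hmg_eval _ _ F le_rfl, ← MvPolynomial.aeval_def] at h3
    exact (mul_eq_zero.1 h3).resolve_left (pow_ne_zero _ hsB)
  have hconst := hC L (fun i => crv S b (a i)) B T
    (hT1.trans (Nat.mul_le_mul_right r hSs)) (fun i => hT2 (a i) (ha i)) hcurve (by
      obtain ⟨G, hGG, hG⟩ := hG
      refine ⟨G, hGG, ?_⟩
      simp only [hev]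
      exact hG) i
  simp only [hev] at hconst
  set u : L := ∑ μ ∈ S, (a i μ).eval 0 with hu
  have hc0 : crv S' b (fun μ => a1 i μ - C u * a0 μ) = 0 := by
    rw [crv_sub_smul, hcrv0, hcrvs, hconst]
    ring
  have hcdeg : ∀ μ ∈ S', (a1 i μ - C u * a0 μ).degree < r := by
    intro μ hμ
    have h1 : (a1 i μ).degree < r := by
      simp only [a1]
      split_ifs with h
      · exact ha i μ h
      · rw [degree_zero]
        exact WithBot.bot_lt_coe r
    have h2 : (C u * a0 μ).degree < r := by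
      have h3 : (C u * a0 μ).degree ≤ 0 := by
        simp only [a0]
        split_ifs with h
        · rw [← C_mul]
          exact degree_C_le
        · rw [mul_zero, degree_zero]
          exact bot_le
      exact lt_of_le_of_lt h3 (by exact_mod_cast hr)
    exact lt_of_le_of_lt (degree_sub_le _ _) (max_lt h1 h2)
  have hc := crv_sep S' b r hb _ hcdeg hc0
  rw [← hsum1 i m]
  calc ∑ μ ∈ S', (a1 i μ).eval (m : L) * ((μ : Lˣ) : L) ^ m =
      ∑ μ ∈ S', u * ((a0 μ).eval (m : L) * ((μ : Lˣ) : L) ^ m) := by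
        refine Finset.sum_congr rfl fun μ hμ => ?_
        have h1 := congrArg (fun P => Polynomial.eval (m : L) P) (hc μ hμ)
        simp only [eval_sub, eval_mul, eval_C, eval_zero] at h1
        rw [sub_eq_zero.1 h1]
        ring
    _ = u := by rw [← Finset.mul_sum, hsum0 m, mul_one]

/-- orbits of linear maps `f` whose eigenvalues lie in a torsion-free group, on the zero set of
`FF`: a point of the orbit off the zero set of `GG` is fixed by `f` -/
def OCond {k : Type} [Field k] (FF GG : Set (MvPolynomial (Fin n) k)) (r : ℕ) : Prop :=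
  ∀ (L : Type) [Field L] [Algebra k L] [IsAlgClosed L] (f : Module.End L (Fin r → L))
    (U : Subgroup Lˣ), (∀ u ∈ U, ∀ m : ℕ, 0 < m → u ^ m = 1 → u = 1) →
    (∀ μ : L, f.HasEigenvalue μ → ∃ u ∈ U, (u : L) = μ) →
    ∀ (ℓ : (Fin r → L) →ₗ[L] (Fin n → L)) (v : Fin r → L),
    (∀ F ∈ FF, ∀ m : ℕ, MvPolynomial.aeval (ℓ ((f ^ m) v)) F = 0) →
    (∃ G ∈ GG, MvPolynomial.aeval (ℓ v) G ≠ 0) → ∀ m : ℕ, ℓ ((f ^ m) v) = ℓ v

theorem orb_coreA {k : Type} [Field k] [CharZero k]
    (FF GG : Set (MvPolynomial (Fin n) k)) (r : ℕ) (hC : ACond FF GG (r * r)) :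
    OCond FF GG r := by
  classical
  have hG3 := exp_poly_A FF GG r r hC
  intro L _ _ _ f U hU hfU ℓ v hF hG m
  have : CharZero L := charZero_of_injective_algebraMap (FaithfulSMul.algebraMap_injective k L)
  let E : Set Lˣ := {u | f.HasEigenvalue (u : L)}
  have hEfin : E.Finite := by
    have h1 : (Units.val '' E : Set L).Finite := by
      by_contra hinf
      obtain ⟨T, hT, hTc⟩ := Set.Infinite.exists_subset_card_eq hinf (r + 1)
      have h1 := card_le_of_eig f T (by
        intro μ hμ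
        obtain ⟨u, hu, rfl⟩ := hT hμ
        exact hu)
      omega
    exact Set.Finite.of_finite_image h1 (fun a _ b _ h => Units.ext h)
  let Λ : Subgroup Lˣ := Subgroup.closure E
  have hΛU : Λ ≤ U := by
    rw [Subgroup.closure_le]
    intro u hu
    obtain ⟨u', hu', h⟩ := hfU (u : L) hu
    rwa [← Units.ext h]
  have hΛ : ∀ μ : L, f.HasEigenvalue μ → ∃ ν : Λ, ((ν : Lˣ) : L) = μ := by
    intro μ hμ
    obtain ⟨u, hu, rfl⟩ := hfU μ hμ
    exact ⟨⟨u, Subgroup.subset_closure hμ⟩, rfl⟩
  have hfg : Group.FG Λ := by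
    rw [Group.fg_iff_subgroup_fg]
    exact ⟨hEfin.toFinset, by rw [Set.Finite.coe_toFinset]⟩
  obtain ⟨S, hS1, hS2⟩ := seq_rep f Λ hΛ
  obtain ⟨β, hβ⟩ := exists_beta hfg (fun g m hm h => by
    have h1 := hU g (hΛU g.2) m hm (by
      have := congrArg (Subtype.val : Λ → Lˣ) h
      simpa using this)
    exact Subtype.ext h1) (insert 1 S)
  have hrep : ∀ i : Fin n, ∃ a : Λ → Polynomial L, (∀ μ ∈ S, (a μ).degree < r) ∧
      ∀ m : ℕ, ℓ ((f ^ m) v) i = ∑ μ ∈ S, (a μ).eval (m : L) * ((μ : Lˣ) : L) ^ m := fun i =>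
    hS2 ((LinearMap.proj i).comp ℓ) v
  choose a ha hae using hrep
  have h0 : ∀ i, ℓ v i = ∑ μ ∈ S, (a i μ).eval 0 := by
    intro i
    have h1 := hae i 0
    rw [pow_zero, Module.End.one_apply] at h1
    rw [h1]
    refine Finset.sum_congr rfl fun μ _ => ?_
    rw [pow_zero, mul_one, Nat.cast_zero]
  have hxm : ∀ m : ℕ, ℓ ((f ^ m) v) = fun i => ∑ μ ∈ S, (a i μ).eval (m : L) *
      ((μ : Lˣ) : L) ^ m := fun m => funext fun i => hae i m
  have hfin := hG3 L Λ S hS1 β (by simpa using hβ) a ha (fun F hFF m => by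
    rw [← hxm m]
    exact hF F hFF m) (by
      obtain ⟨G, hGG, hG⟩ := hG
      refine ⟨G, hGG, ?_⟩
      have h1 : (fun i => ∑ μ ∈ S, (a i μ).eval 0) = ℓ v := funext fun i => (h0 i).symm
      rw [h1]
      exact hG)
  funext i
  rw [hae i m, h0 i]
  exact hfin i m

end Pool.Agent.Y377.AO
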