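import Mathlib
import Pool.Agent.Y377.AO.Core

set_option autoImplicit false

/-! # Orbits of groups of matrices on an affine variety -/

namespace Pool.Agent.Y377.AO

open Pool.Agent.TH717.GO

variable {n r : ℕ} {k : Type} [Field k] {K : Type} [Field K] [Algebra k K] {H : Type} [Group H]

/-- the vector `M ρ(h) v` -/
def orbA (M : Matrix (Fin n) (Fin r) K) (ρ : H →* Matrix.GeneralLinearGroup (Fin r) K)
    (v : Fin r → K) (h : H) : Fin n → K :=
  M.mulVec ((ρ h : Matrix (Fin r) (Fin r) K).mulVec v)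

/-- the orbit lies on the zero set of `FF` -/
def OnV (FF : Set (MvPolynomial (Fin n) k)) (M : Matrix (Fin n) (Fin r) K)
    (ρ : H →* Matrix.GeneralLinearGroup (Fin r) K) (v : Fin r → K) : Prop :=
  ∀ h, ∀ F ∈ FF, MvPolynomial.aeval (orbA M ρ v h) F = 0

/-- the points of the orbit outside the zero set of `GG` -/
def offSet (GG : Set (MvPolynomial (Fin n) k)) (M : Matrix (Fin n) (Fin r) K)
    (ρ : H →* Matrix.GeneralLinearGroup (Fin r) K) (v : Fin r → K) : Set (Fin n → K) :=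
  {x | (∃ h : H, x = orbA M ρ v h) ∧ ∃ G ∈ GG, MvPolynomial.aeval x G ≠ 0}

/-- along the powers of a neat element -/
theorem neat_powA {FF GG : Set (MvPolynomial (Fin n) k)} (hO : OCond FF GG r)
    (M : Matrix (Fin n) (Fin r) K) (ρ : H →* Matrix.GeneralLinearGroup (Fin r) K) (v : Fin r → K)
    (hX : OnV FF M ρ v) (g h : H) (hGg : ∃ G ∈ GG, MvPolynomial.aeval (orbA M ρ v g) G ≠ 0)
    (hh : NeatEl ρ h) (m : ℕ) : orbA M ρ v (g * h ^ m) = orbA M ρ v g := by
  classical
  obtain ⟨U, hU, heig⟩ := hh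
  let L := AlgebraicClosure K
  let φ : K →+* L := algebraMap K L
  have hφ : Function.Injective φ := (algebraMap K L).injective
  have hmul : ∀ a b : H, (ρ (a * b) : Matrix (Fin r) (Fin r) K) =
      (ρ a : Matrix (Fin r) (Fin r) K) * (ρ b : Matrix (Fin r) (Fin r) K) := fun a b => by
    rw [map_mul, Units.val_mul]
  let ℓ : (Fin r → L) →ₗ[L] (Fin n → L) :=
    Matrix.mulVecLin ((M * (ρ g : Matrix (Fin r) (Fin r) K)).map φ)
  let v' : Fin r → L := φ ∘ v
  have hρpow : ∀ m : ℕ, (ρ (h ^ m) : Matrix (Fin r) (Fin r) K) =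
      (ρ h : Matrix (Fin r) (Fin r) K) ^ m := fun m => by
    rw [map_pow, Units.val_pow_eq_pow_val]
  have hseq : ∀ m : ℕ, ℓ (((Matrix.toLinAlgEquiv' ((ρ h : Matrix (Fin r) (Fin r) K).map φ)) ^ m) v') =
      fun i => φ (orbA M ρ v (g * h ^ m) i) := by
    intro m
    rw [← map_pow, Matrix.toLinAlgEquiv'_apply]
    have h1 : ((ρ h : Matrix (Fin r) (Fin r) K).map φ) ^ m =
        ((ρ (h ^ m) : Matrix (Fin r) (Fin r) K)).map φ := by
      have h2 : ((ρ h : Matrix (Fin r) (Fin r) K).map φ) =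
          φ.mapMatrix (ρ h : Matrix (Fin r) (Fin r) K) := rfl
      rw [h2, ← map_pow, ← hρpow]
      rfl
    rw [h1]
    show ((M * (ρ g : Matrix (Fin r) (Fin r) K)).map φ).mulVec
      (((ρ (h ^ m) : Matrix (Fin r) (Fin r) K)).map φ |>.mulVec v') = _
    rw [Matrix.mulVec_mulVec, ← Matrix.map_mul]
    funext i
    unfold orbA
    rw [hmul, Matrix.mulVec_mulVec, ← Matrix.mul_assoc]
    exact (RingHom.map_mulVec φ _ v i).symm
  have hseq0 : ℓ v' = fun i => φ (orbA M ρ v g i) := by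
    have h1 := hseq 0
    rw [pow_zero, pow_zero, mul_one, Module.End.one_apply] at h1
    exact h1
  have hae : ∀ (x : Fin n → K) (F : MvPolynomial (Fin n) k),
      (MvPolynomial.aeval fun i => φ (x i)) F = φ (MvPolynomial.aeval x F) := fun x F =>
    MvPolynomial.aeval_algebraMap_apply (A := K) L x F
  have hfin := hO L
    (Matrix.toLinAlgEquiv' ((ρ h : Matrix (Fin r) (Fin r) K).map φ)) U hU (by
      intro μ hμ
      obtain ⟨w, hw⟩ := hμ.exists_hasEigenvector
      refine heig μ w hw.2 ?_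
      have := hw.apply_eq_smul
      rwa [Matrix.toLinAlgEquiv'_apply] at this) ℓ v' (by
      intro F hF m
      rw [hseq m, hae, hX _ F hF, map_zero]) (by
      obtain ⟨G, hGG, hG⟩ := hGg
      refine ⟨G, hGG, ?_⟩
      rw [hseq0, hae]
      intro h3
      exact hG (hφ (by rw [h3, map_zero]))) m
  rw [hseq m, hseq0] at hfin
  funext i
  exact hφ (congrFun hfin i)

/-- **The orbit is constant on the cosets of the subgroup generated by the neat elements**, off the
zero set of `GG`. -/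
theorem neat_constA {FF GG : Set (MvPolynomial (Fin n) k)} (hO : OCond FF GG r)
    (M : Matrix (Fin n) (Fin r) K) (ρ : H →* Matrix.GeneralLinearGroup (Fin r) K) (v : Fin r → K)
    (hX : OnV FF M ρ v) (x : H) (hx : x ∈ NN ρ) :
    ∀ g : H, (∃ G ∈ GG, MvPolynomial.aeval (orbA M ρ v g) G ≠ 0) →
      orbA M ρ v (g * x) = orbA M ρ v g := by
  have step : ∀ h y : H, NeatEl ρ h → (∀ g : H, (∃ G ∈ GG,
      MvPolynomial.aeval (orbA M ρ v g) G ≠ 0) → orbA M ρ v (g * y) = orbA M ρ v g) →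
      ∀ g : H, (∃ G ∈ GG, MvPolynomial.aeval (orbA M ρ v g) G ≠ 0) →
      orbA M ρ v (g * (h * y)) = orbA M ρ v g := by
    intro h y hh hy g hg
    have h1 := neat_powA hO M ρ v hX g h hg hh 1
    rw [pow_one] at h1
    have h2 := hy (g * h) (by rwa [h1])
    rw [← mul_assoc, h2, h1]
  refine Subgroup.closure_induction_left (p := fun x _ => ∀ g : H, (∃ G ∈ GG,
    MvPolynomial.aeval (orbA M ρ v g) G ≠ 0) → orbA M ρ v (g * x) = orbA M ρ v g) ?_ ?_ ?_ hx
  · intro g _
    rw [mul_one]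
  · intro h hh y _ hy
    exact step h y hh hy
  · intro h hh y _ hy
    exact step h⁻¹ y hh.inv hy

/-- counting: a map to a finite set whose fibres give one point -/
theorem encard_offSet_le (GG : Set (MvPolynomial (Fin n) k))
    (M : Matrix (Fin n) (Fin r) K) (ρ : H →* Matrix.GeneralLinearGroup (Fin r) K) (v : Fin r → K)
    {T : Type} [Finite T] (red : H → T)
    (hkey : ∀ g g' : H, red g = red g' → (∃ G ∈ GG, MvPolynomial.aeval (orbA M ρ v g) G ≠ 0) →
      orbA M ρ v g' = orbA M ρ v g) :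
    (offSet GG M ρ v).encard ≤ Nat.card T := by
  classical
  have hsel : ∀ x : Fin n → K, ∃ h : H, x ∈ offSet GG M ρ v → x = orbA M ρ v h := by
    intro x
    by_cases hx : x ∈ offSet GG M ρ v
    · obtain ⟨⟨h, hh⟩, -⟩ := hx
      exact ⟨h, fun _ => hh⟩
    · exact ⟨1, fun h => absurd h hx⟩
  choose sel hsel using hsel
  have hinj : Set.InjOn (fun x => red (sel x)) (offSet GG M ρ v) := by
    intro x hx y hy heq
    have h1 := hsel x hx
    have h2 := hsel y hy
    obtain ⟨-, G, hGG, hG⟩ := hx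
    rw [h1] at hG
    rw [h1, h2]
    exact (hkey (sel x) (sel y) heq ⟨G, hGG, hG⟩).symm
  calc (offSet GG M ρ v).encard ≤ (Set.univ : Set T).encard :=
        Set.encard_le_encard_of_injOn (fun _ _ => Set.mem_univ _) hinj
    _ = Nat.card T := by
        have h1 : Fintype T := Fintype.ofFinite _
        rw [Set.encard_univ, ENat.card_eq_coe_fintype_card, Nat.card_eq_fintype_card]

/-- bound by the index of the subgroup generated by the neat elements -/
theorem encard_le_index {FF GG : Set (MvPolynomial (Fin n) k)} (hO : OCond FF GG r)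
    (M : Matrix (Fin n) (Fin r) K) (ρ : H →* Matrix.GeneralLinearGroup (Fin r) K) (v : Fin r → K)
    (hX : OnV FF M ρ v) (h0 : (NN ρ).index ≠ 0) :
    (offSet GG M ρ v).encard ≤ (NN ρ).index := by
  have hfin : Finite (H ⧸ NN ρ) := by
    have : (NN ρ).FiniteIndex := ⟨h0⟩
    infer_instance
  have h1 := encard_offSet_le GG M ρ v (T := H ⧸ NN ρ) (fun h => (h : H ⧸ NN ρ)) (by
    intro g g' hgg hg
    have h2 : g⁻¹ * g' ∈ NN ρ := QuotientGroup.eq.1 hgg
    have h3 := neat_constA hO M ρ v hX (g⁻¹ * g') h2 g hg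
    rwa [mul_inv_cancel_left] at h3)
  rwa [← Subgroup.index_eq_card] at h1

/-- **Orbits over a ring with two residue fields.** -/
theorem two_coreA {FF GG : Set (MvPolynomial (Fin n) k)} (hO : OCond FF GG r) (A : Subring K)
    {F₁ F₂ : Type} [Field F₁] [Field F₂] [Finite F₁] [Finite F₂] (φ₁ : A →+* F₁) (φ₂ : A →+* F₂)
    (hne : ringChar F₁ ≠ ringChar F₂)
    (ρ : H →* Matrix.GeneralLinearGroup (Fin r) A) (M : Matrix (Fin n) (Fin r) K)
    (v : Fin r → K) (hX : OnV FF M ((Matrix.GeneralLinearGroup.map A.subtype).comp ρ) v) :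
    (offSet GG M ((Matrix.GeneralLinearGroup.map A.subtype).comp ρ) v).encard ≤
      (Nat.card (Matrix.GeneralLinearGroup (Fin r) F₁) *
        Nat.card (Matrix.GeneralLinearGroup (Fin r) F₂) : ℕ) := by
  have hbound := encard_offSet_le GG M ((Matrix.GeneralLinearGroup.map A.subtype).comp ρ) v
    (T := Matrix.GeneralLinearGroup (Fin r) F₁ × Matrix.GeneralLinearGroup (Fin r) F₂)
    (fun h => (Matrix.GeneralLinearGroup.map φ₁ (ρ h), Matrix.GeneralLinearGroup.map φ₂ (ρ h))) (by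
      intro g g' hgg hGg
      have h1 : ∀ (F : Type) [Field F] (φ : A →+* F),
          Matrix.GeneralLinearGroup.map φ (ρ g) = Matrix.GeneralLinearGroup.map φ (ρ g') →
          Matrix.GeneralLinearGroup.map φ (ρ (g⁻¹ * g')) = 1 := by
        intro F _ φ h
        rw [map_mul, map_mul, map_inv, map_inv, h, inv_mul_cancel]
      have hn : NeatEl (ext A ρ) (g⁻¹ * g') := ker_two_neat A φ₁ φ₂ hne ρ (g⁻¹ * g')
        (h1 F₁ φ₁ (Prod.ext_iff.1 hgg).1) (h1 F₂ φ₂ (Prod.ext_iff.1 hgg).2)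
      have h2 := neat_powA hO M (ext A ρ) v hX g (g⁻¹ * g') hGg hn 1
      rwa [pow_one, mul_inv_cancel_left] at h2)
  rwa [Nat.card_prod] at hbound

/-- **Orbits of finitely generated groups over arbitrary fields.** -/
theorem fg_coreA [CharZero K] {FF GG : Set (MvPolynomial (Fin n) k)} (hO : OCond FF GG r)
    (hH : Group.FG H) (ρ : H →* Matrix.GeneralLinearGroup (Fin r) K) (M : Matrix (Fin n) (Fin r) K)
    (v : Fin r → K) (hX : OnV FF M ρ v) : (offSet GG M ρ v).Finite := by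
  obtain ⟨S, hS⟩ := fg_subring hH ρ
  obtain ⟨N, hN, hp⟩ := exists_residue_closure S
  obtain ⟨p₁, hp₁N, hp₁⟩ := Nat.exists_infinite_primes (N + 1)
  obtain ⟨p₂, hp₂N, hp₂⟩ := Nat.exists_infinite_primes (p₁ + 1)
  have hnd : ∀ p, N + 1 ≤ p → ¬ p ∣ N := fun p hp h => by
    have := Nat.le_of_dvd (Nat.pos_of_ne_zero hN) h
    omega
  obtain ⟨F₁, i1, f1, hc1, ⟨φ₁⟩⟩ := hp p₁ hp₁ (hnd p₁ hp₁N)
  obtain ⟨F₂, i2, f2, hc2, ⟨φ₂⟩⟩ := hp p₂ hp₂ (hnd p₂ (by omega))
  have h0 := NN_index_two (Subring.closure (S : Set K)) φ₁ φ₂ (by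
    rw [hc1, hc2]
    omega) (toSub _ ρ hS)
  rw [ext_toSub] at h0
  exact Set.finite_of_encard_le_coe (encard_le_index hO M ρ v hX h0)

/-- **The uniform bound for arbitrary groups.** -/
theorem uni_coreA [CharZero K] {FF GG : Set (MvPolynomial (Fin n) k)} (hO : OCond FF GG r)
    {D : ℕ} (hD : SpecDeg K D) (ρ : H →* Matrix.GeneralLinearGroup (Fin r) K)
    (M : Matrix (Fin n) (Fin r) K) (v : Fin r → K) (hX : OnV FF M ρ v) :
    (offSet GG M ρ v).encard ≤ bd r D := by
  classical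
  by_contra hcon
  push Not at hcon
  obtain ⟨T, hT, hTc⟩ := Set.exists_subset_encard_eq (s := offSet GG M ρ v)
    (k := ((bd r D + 1 : ℕ) : ℕ∞)) (by
      have := Order.add_one_le_of_lt hcon
      exact_mod_cast this)
  have hTfin : T.Finite := Set.finite_of_encard_eq_coe hTc
  have hsel : ∀ x : Fin n → K, ∃ h : H, x ∈ T → x = orbA M ρ v h := by
    intro x
    by_cases hx : x ∈ T
    · obtain ⟨⟨h, hh⟩, -⟩ := hT hx
      exact ⟨h, fun _ => hh⟩
    · exact ⟨1, fun h => absurd h hx⟩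
  choose sel hsel using hsel
  let H' : Subgroup H := Subgroup.closure (sel '' T)
  have hfg : Group.FG H' := by
    rw [Group.fg_iff_subgroup_fg]
    exact ⟨(hTfin.image sel).toFinset, by rw [Set.Finite.coe_toFinset]⟩
  obtain ⟨h0, hdvd⟩ := NN_index_bd hD hfg (ρ.comp H'.subtype)
  have hb := encard_le_index (GG := GG) hO M (ρ.comp H'.subtype) v (fun h => hX h) h0
  have hsub : T ⊆ offSet GG M (ρ.comp H'.subtype) v := by
    intro x hx
    exact ⟨⟨⟨sel x, Subgroup.subset_closure ⟨x, hx, rfl⟩⟩, hsel x hx⟩, (hT hx).2⟩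
  have h3 := (Set.encard_le_encard hsub).trans hb
  rw [hTc] at h3
  have h4 : bd r D + 1 ≤ (NN (ρ.comp H'.subtype)).index := by exact_mod_cast h3
  have h5 := Nat.le_of_dvd (bd_pos r D) hdvd
  omega

open NumberField in
/-- **Orbits of groups of `p`-integral matrices over number fields.** -/
theorem pint_coreA [NumberField K] {FF GG : Set (MvPolynomial (Fin n) k)}
    (hO : OCond FF GG r) (p : ℕ) (hp : p.Prime) (hp3 : 3 ≤ p)
    (ρ : H →* Matrix.GeneralLinearGroup (Fin r) K)
    (hρ : ∀ h i j, PInt p ((ρ h : Matrix (Fin r) (Fin r) K) i j))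
    (M : Matrix (Fin n) (Fin r) K) (v : Fin r → K) (hX : OnV FF M ρ v) :
    (offSet GG M ρ v).encard ≤ (p ^ (Module.finrank ℚ K * r ^ 2) : ℕ) := by
  classical
  let I : Ideal (𝓞 K) := Ideal.span {(p : 𝓞 K)}
  have hcard : Nat.card (𝓞 K ⧸ I) = p ^ Module.finrank ℚ K := card_quot p
  have hfin : Finite (𝓞 K ⧸ I) := Nat.finite_of_card_ne_zero (by
    rw [hcard]
    exact pow_ne_zero _ hp.ne_zero)
  choose y c hc hyc using fun (h : H) (i j : Fin r) =>
    exists_red hp ((ρ h : Matrix (Fin r) (Fin r) K) i j) (hρ h i j)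
  let red : H → (Fin r → Fin r → 𝓞 K ⧸ I) := fun h i j => Ideal.Quotient.mk I (y h i j)
  have hred : ∀ g g' : H, red g = red g' → ∃ D : Matrix (Fin r) (Fin r) K,
      (∀ i j, PInt p (D i j)) ∧
      (ρ g' : Matrix (Fin r) (Fin r) K) = (ρ g : Matrix (Fin r) (Fin r) K) + (p : K) • D := by
    intro g g' h
    have h1 : ∀ i j, ∃ z : 𝓞 K, y g' i j - y g i j = p * z := by
      intro i j
      have h2 : Ideal.Quotient.mk I (y g' i j) = Ideal.Quotient.mk I (y g i j) :=
        (congrFun (congrFun h i) j).symm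
      rw [Ideal.Quotient.eq, Ideal.mem_span_singleton] at h2
      exact h2
    choose z hz using h1
    refine ⟨Matrix.of fun i j => (z i j : K) + (c g' i j + -c g i j), fun i j => ?_, ?_⟩
    · rw [Matrix.of_apply]
      exact (PInt.of_int hp (z i j).2).add hp ((hc g' i j).add hp ((hc g i j).neg hp))
    · ext i j
      rw [Matrix.add_apply, Matrix.smul_apply, smul_eq_mul, Matrix.of_apply, hyc g' i j,
        hyc g i j]
      have h3 : (y g' i j : K) - y g i j = p * z i j := by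
        have := congrArg (fun a : 𝓞 K => (a : K)) (hz i j)
        simpa using this
      linear_combination h3
  have hneat : ∀ (g g' : H) (D : Matrix (Fin r) (Fin r) K), (∀ i j, PInt p (D i j)) →
      (ρ g' : Matrix (Fin r) (Fin r) K) = (ρ g : Matrix (Fin r) (Fin r) K) + (p : K) • D →
      NeatEl ρ (g⁻¹ * g') := by
    intro g g' D hD hgg
    let L := AlgebraicClosure K
    let φ : K →+* L := algebraMap K L
    let h : H := g⁻¹ * g'
    have hmul : ∀ a b : H, (ρ (a * b) : Matrix (Fin r) (Fin r) K) =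
        (ρ a : Matrix (Fin r) (Fin r) K) * (ρ b : Matrix (Fin r) (Fin r) K) := fun a b => by
      rw [map_mul, Units.val_mul]
    have hone : (ρ 1 : Matrix (Fin r) (Fin r) K) = 1 := by rw [map_one, Units.val_one]
    let Bh : Matrix (Fin r) (Fin r) K := (ρ g⁻¹ : Matrix (Fin r) (Fin r) K) * D
    let Bh' : Matrix (Fin r) (Fin r) K := -((ρ g'⁻¹ : Matrix (Fin r) (Fin r) K) * D)
    have hh : (ρ h : Matrix (Fin r) (Fin r) K) = 1 + (p : K) • Bh := by
      show (ρ (g⁻¹ * g') : Matrix (Fin r) (Fin r) K) = _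
      rw [hmul, hgg, mul_add, ← hmul, inv_mul_cancel, hone, Matrix.mul_smul]
    have hh' : (ρ h⁻¹ : Matrix (Fin r) (Fin r) K) = 1 + (p : K) • Bh' := by
      have h1 : h⁻¹ = g'⁻¹ * g := by simp [h]
      have h2 : (ρ g : Matrix (Fin r) (Fin r) K) =
          (ρ g' : Matrix (Fin r) (Fin r) K) - (p : K) • D := by rw [hgg]; abel
      rw [h1, hmul, h2, mul_sub, ← hmul, inv_mul_cancel, hone, Matrix.mul_smul]
      show _ = 1 + (p : K) • (-((ρ g'⁻¹ : Matrix (Fin r) (Fin r) K) * D))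
      rw [smul_neg]
      abel
    have hBh : ∀ i j, PInt p (Bh i j) := fun i j => by
      show PInt p (((ρ g⁻¹ : Matrix (Fin r) (Fin r) K) * D) i j)
      rw [Matrix.mul_apply]
      exact PInt.sum hp _ _ fun a _ => (hρ _ _ _).mul hp (hD _ _)
    have hBh' : ∀ i j, PInt p (Bh' i j) := fun i j => by
      show PInt p (-(((ρ g'⁻¹ : Matrix (Fin r) (Fin r) K) * D) i j))
      refine PInt.neg hp ?_
      rw [Matrix.mul_apply]
      exact PInt.sum hp _ _ fun a _ => (hρ _ _ _).mul hp (hD _ _)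
    have hmap : ∀ C : Matrix (Fin r) (Fin r) K,
        ((1 : Matrix (Fin r) (Fin r) K) + (p : K) • C).map φ = 1 + (p : L) • C.map φ := by
      intro C
      have h1 : ((1 : Matrix (Fin r) (Fin r) K) + (p : K) • C).map φ =
          φ.mapMatrix (1 + (p : K) • C) := rfl
      rw [h1, map_add, map_one]
      congr 1
      ext a b
      simp
    refine ⟨UU hp L, UU_torsionFree hp hp3, fun μ w hw0 hw => ?_⟩
    refine eig_mem_UU (L := L) hp ((ρ h : Matrix (Fin r) (Fin r) K).map φ)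
      ((ρ h⁻¹ : Matrix (Fin r) (Fin r) K).map φ) (Bh.map φ) (Bh'.map φ) (by
        rw [← Matrix.map_mul, ← hmul, inv_mul_cancel, hone]
        exact Matrix.map_one φ (map_zero φ) (map_one φ)) (by rw [hh, hmap]) (by rw [hh', hmap])
        (fun i j => (hBh i j).map φ) (fun i j => (hBh' i j).map φ) μ ?_
    refine Module.End.hasEigenvalue_of_hasEigenvector (x := w)
      (Module.End.hasEigenvector_iff.2 ⟨Module.End.mem_eigenspace_iff.2 ?_, hw0⟩)
    rw [Matrix.toLinAlgEquiv'_apply]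
    exact hw
  have h1 := encard_offSet_le GG M ρ v red (by
    intro g g' hgg hGg
    obtain ⟨D, hD, hDe⟩ := hred g g' hgg
    have h2 := neat_powA hO M ρ v hX g (g⁻¹ * g') hGg (hneat g g' D hD hDe) 1
    rwa [pow_one, mul_inv_cancel_left] at h2)
  refine h1.trans (le_of_eq ?_)
  congr 1
  have h2 : Fintype (𝓞 K ⧸ I) := Fintype.ofFinite _
  rw [Nat.card_eq_fintype_card, Fintype.card_fun, Fintype.card_fun, Fintype.card_fin,
    ← Nat.card_eq_fintype_card, hcard, ← pow_mul, ← pow_mul]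
  congr 1
  ring

end Pool.Agent.Y377.AO
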