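import Mathlib
import Pool.Agent.Y377.AO.Orb
import Pool.Agent.Y215.AF.LogConv
import Pool.Agent.Y215.AF.Main

set_option autoImplicit false

/-! # From punctured lines to the condition on Laurent curves, and the converse -/

namespace Pool.Agent.Y377.AO

open Polynomial Pool.Agent.TH717.GO Pool.Agent.W235.RM Pool.Agent.H533R3.SL Pool.Agent.Y215.AF
open Pool.Agent.H159R3.Exp (Laur cpt)
open scoped NumberField

variable {n : ℕ}

/-- coefficients and exponents of a Laurent curve -/
theorem exists_homC {L : Type} [Field L] (p : Fin n → Polynomial L) (B : ℕ) (S : Finset ℕ)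
    (hS : ∀ i, (p i).support ⊆ S) (R : ℕ) (hR : S.card ≤ R) :
    ∃ (c : Fin R → Fin n → L) (l : Fin (R + 1) → ℕ), l 0 = B ∧
      (∀ i : Fin n, cur (homC c) l i.succ = p i) ∧ cur (homC c) l 0 = X ^ B ∧
      ∀ i : Fin n, ∑ j, c j i = (p i).eval 1 := by
  obtain ⟨c', l', hc⟩ := exists_cur (Fin.cons 0 p : Fin (n + 1) → Polynomial L) S
    (fun i => by
      refine Fin.cases ?_ (fun i => ?_) i
      · simp
      · simpa using hS i) R hR
  have h1 : ∀ i : Fin n, cur (homC fun j a => c' j a.succ) (Fin.cons B l') i.succ = p i := by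
    intro i
    rw [cur_homC_succ]
    have h2 := hc i.succ
    rw [Fin.cons_succ] at h2
    rw [← h2]
    unfold cur
    simp
  have h0 : cur (homC fun j a => c' j a.succ) (Fin.cons B l') 0 = (X : Polynomial L) ^ B := by
    rw [cur_homC_zero, Fin.cons_zero]
  refine ⟨fun j a => c' j a.succ, Fin.cons B l', by simp, h1, h0, fun i => ?_⟩
  rw [← h1 i, cur_homC_succ, Polynomial.eval_finsetSum]
  simp

theorem sum_homC {L : Type} [Field L] {R : ℕ} (c : Fin R → Fin n → L) :
    (∑ j, homC c j 0 = 1) ∧ ∀ i : Fin n, ∑ j, homC c j i.succ = ∑ j, c j i := by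
  have h := homC_sum c
  refine ⟨?_, fun i => ?_⟩
  · have := congrFun h 0
    simpa using this
  · have := congrFun h i.succ
    simpa using this

/-- a polynomial which vanishes off `0` is zero -/
theorem eq_zero_of_eval {L : Type} [Field L] [CharZero L] (q : Polynomial L)
    (h : ∀ s : L, s ≠ 0 → q.eval s = 0) : q = 0 := by
  have h1 : X * q = 0 := by
    refine Polynomial.funext fun s => ?_
    rw [eval_mul, eval_X, eval_zero]
    by_cases hs : s = 0
    · rw [hs, zero_mul]
    · rw [h s hs, mul_zero]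
  exact (mul_eq_zero.1 h1).resolve_left X_ne_zero

/-- the equations of the curve in homogeneous form -/
theorem hmg_cur {k : Type} [Field k] {L : Type} [Field L] [CharZero L] [Algebra k L]
    (F : MvPolynomial (Fin n) k) (d : ℕ) (hd : F.totalDegree ≤ d) (p : Fin n → Polynomial L)
    (B : ℕ) {R : ℕ} (c : Fin R → Fin n → L) (l : Fin (R + 1) → ℕ)
    (h1 : ∀ i : Fin n, cur (homC c) l i.succ = p i) (h0 : cur (homC c) l 0 = X ^ B)
    (hF : ∀ s : L, s ≠ 0 → MvPolynomial.aeval (fun i => (p i).eval s / s ^ B) F = 0) :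
    MvPolynomial.aeval (cur (homC c) l) (hmg d F) = 0 := by
  refine eq_zero_of_eval _ fun s hs => ?_
  rw [Pool.Agent.Y215.AF.aeval_eval]
  have hsB : s ^ B ≠ 0 := pow_ne_zero _ hs
  have h4 : (fun i => (cur (homC c) l i).eval s) =
      (Fin.cons (s ^ B) (fun i => s ^ B * ((p i).eval s / s ^ B)) : Fin (n + 1) → L) := by
    funext i
    refine Fin.cases ?_ (fun i => ?_) i
    · rw [Fin.cons_zero, h0, eval_pow, eval_X]
    · rw [Fin.cons_succ, mul_div_cancel₀ _ hsB, h1]
  rw [h4, MvPolynomial.aeval_def, hmg_eval _ d F hd, ← MvPolynomial.aeval_def, hF s hs, mul_zero]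

theorem acond_of_curCond {k : Type} [Field k] [CharZero k] {N : ℕ}
    (F : Fin N → MvPolynomial (Fin n) k) (d : ℕ) (hd : ∀ i, (F i).totalDegree ≤ d)
    (G : MvPolynomial (Fin n) k) (R : ℕ) (h : Pool.Agent.Y215.AF.CurCond F d G R) :
    ACond (Set.range F) {G} R := by
  intro L _ _ p B S hSR hS hF hG
  have hchar : CharZero L := charZero_of_injective_algebraMap (FaithfulSMul.algebraMap_injective k L)
  obtain ⟨c, l, hl, h1, h0, hsum⟩ := exists_homC p B S hS R hSR
  by_contra hcon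
  push Not at hcon
  obtain ⟨i, hi⟩ := hcon
  obtain ⟨G', hG', hGne⟩ := hG
  rw [Set.mem_singleton_iff] at hG'
  subst hG'
  have h2 := h L c l (fun j => hmg_cur (F j) d (hd j) p B c l h1 h0 (hF _ ⟨j, rfl⟩))
    ⟨i.succ, 0, by
      rw [h1, h0, (sum_homC c).1, (sum_homC c).2, hsum, C_1, mul_one]
      exact hi⟩
  apply hGne
  have h3 : (fun i => (p i).eval 1) = fun i => ∑ j, c j i := funext fun i => (hsum i).symm
  rw [h3]
  exact h2

/-- powers of the diagonal matrix with entries `2 ^ (j - e)` -/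
noncomputable def diaE (K : Type) [Field K] [CharZero K] (N e : ℕ) :
    Multiplicative ℤ →* Matrix.GeneralLinearGroup (Fin N) K where
  toFun m :=
    { val := Matrix.diagonal fun j : Fin N => (2 : K) ^ (Multiplicative.toAdd m * ((j : ℤ) - e))
      inv := Matrix.diagonal fun j : Fin N => (2 : K) ^ (-(Multiplicative.toAdd m * ((j : ℤ) - e)))
      val_inv := by
        rw [Matrix.diagonal_mul_diagonal, ← Matrix.diagonal_one]
        congr 1
        funext j
        rw [← zpow_add₀ two_ne_zero, add_neg_cancel, zpow_zero]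
      inv_val := by
        rw [Matrix.diagonal_mul_diagonal, ← Matrix.diagonal_one]
        congr 1
        funext j
        rw [← zpow_add₀ two_ne_zero, neg_add_cancel, zpow_zero] }
  map_one' := by
    apply Units.ext
    show Matrix.diagonal _ = (1 : Matrix (Fin N) (Fin N) K)
    rw [← Matrix.diagonal_one]
    congr 1
    funext j
    simp
  map_mul' a b := by
    apply Units.ext
    show Matrix.diagonal _ = Matrix.diagonal _ * Matrix.diagonal _
    rw [Matrix.diagonal_mul_diagonal]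
    congr 1
    funext j
    rw [← zpow_add₀ two_ne_zero, toAdd_mul, add_mul]

theorem orbA_diaE {L : Type} [Field L] [CharZero L] {D : ℕ} (e : ℕ)
    (κ : Fin n × Fin (D + 1) → L) (m : Multiplicative ℤ) :
    orbA (fun i j => κ (i, j)) (diaE L (D + 1) e) (fun _ => 1) m =
      cpt e κ ((2 : L) ^ (Multiplicative.toAdd m)) := by
  funext i
  show ∑ j, κ (i, j) * ((Matrix.diagonal fun j : Fin (D + 1) =>
    (2 : L) ^ (Multiplicative.toAdd m * ((j : ℤ) - e))).mulVec fun _ => 1) j = _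
  unfold cpt
  rw [Finset.sum_div]
  refine Finset.sum_congr rfl fun j _ => ?_
  rw [Matrix.mulVec_diagonal, mul_one, mul_div_assoc]
  congr 1
  rw [← zpow_natCast, ← zpow_natCast, ← zpow_mul, ← zpow_mul, ← zpow_sub₀ two_ne_zero]
  congr 1
  ring

/-- a nonconstant Laurent curve over a number field gives an infinite orbit of a cyclic group -/
theorem inf_orbit {k : Type} [Field k] (FF GG : Set (MvPolynomial (Fin n) k))
    {L : Type} [Field L] [NumberField L] [Algebra k L] {D : ℕ} (e : ℕ)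
    (κ : Fin n × Fin (D + 1) → L)
    (hF : ∀ F ∈ FF, ∀ t, t ≠ 0 → MvPolynomial.aeval (cpt e κ t) F = 0)
    (hG : ∃ G ∈ GG, MvPolynomial.aeval (cpt e κ 1) G ≠ 0) (k1 : ℕ) (j1 : Fin n)
    (hk : cpt e κ (2 ^ k1) j1 ≠ cpt e κ 1 j1) :
    OnV FF (fun i j => κ (i, j)) (diaE L (D + 1) e) (fun _ => 1) ∧
      (offSet GG (fun i j => κ (i, j)) (diaE L (D + 1) e) (fun _ => 1)).Infinite := by
  classical
  have h20 : (2 : L) ≠ 0 := two_ne_zero
  have hv := Pool.Agent.H159R3.Exp.cpt_laur e κ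
  refine ⟨fun h F hFF => ?_, fun hfin => ?_⟩
  · rw [orbA_diaE]
    exact hF F hFF _ (zpow_ne_zero _ h20)
  obtain ⟨G, hGG, hGne⟩ := hG
  have hG0 : {m : ℕ | MvPolynomial.aeval (cpt e κ (2 ^ m)) G = 0}.Finite :=
    (Laur.eval₂ (algebraMap k L) (cpt e κ) hv G).finite_zeros ⟨1, one_ne_zero, hGne⟩
  have hfib : ∀ x : Fin n → L, {m : ℕ | cpt e κ (2 ^ m) = x}.Finite := by
    intro x
    have h1 : Laur fun t => cpt e κ t j1 + (-(x j1)) := (hv j1).add (Laur.const _)
    refine (h1.finite_zeros ?_).subset ?_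
    · by_contra hcon
      push Not at hcon
      have h2 := hcon (2 ^ k1) (pow_ne_zero _ h20)
      have h3 := hcon 1 one_ne_zero
      apply hk
      linear_combination h2 - h3
    · intro m hm
      have h2 : cpt e κ (2 ^ m) = x := hm
      show cpt e κ (2 ^ m) j1 + (-(x j1)) = 0
      rw [h2, add_neg_cancel]
  have hall : (Set.univ : Set ℕ) ⊆ {m : ℕ | MvPolynomial.aeval (cpt e κ (2 ^ m)) G = 0} ∪
      ⋃ x ∈ offSet GG (fun i j => κ (i, j)) (diaE L (D + 1) e) (fun _ => 1),
        {m : ℕ | cpt e κ (2 ^ m) = x} := by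
    intro m _
    by_cases h : MvPolynomial.aeval (cpt e κ (2 ^ m)) G = 0
    · exact Or.inl h
    · right
      rw [Set.mem_iUnion₂]
      refine ⟨cpt e κ (2 ^ m), ⟨⟨Multiplicative.ofAdd (m : ℤ), ?_⟩, G, hGG, h⟩, rfl⟩
      rw [orbA_diaE, toAdd_ofAdd, zpow_natCast]
  exact Set.infinite_univ ((hG0.union (hfin.biUnion fun x _ => hfib x)).subset hall)

/-- **Converse for affine varieties dominated by punctured lines.** -/
theorem conv_orbit {k : Type} [Field k] [NumberField k] {N : ℕ}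
    (F : Fin N → MvPolynomial (Fin n) k) (h : GmUniruled (Ideal.span (Set.range F))) :
    ∃ r : ℕ, ∀ G : MvPolynomial (Fin n) k, G ∉ Ideal.span (Set.range F) →
      ∃ (L : Type) (_ : Field L) (_ : NumberField L) (_ : Algebra k L)
        (ρ : Multiplicative ℤ →* Matrix.GeneralLinearGroup (Fin r) L)
        (M : Matrix (Fin n) (Fin r) L) (v : Fin r → L),
        OnV (Set.range F) M ρ v ∧ (offSet {G} M ρ v).Infinite := by
  classical
  obtain ⟨M0, _, _, v, hv, hvF, hvG, hnc⟩ := h
  have hchar : CharZero M0 := charZero_of_injective_algebraMap (algebraMap k M0).injective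
  obtain ⟨k1, j1, hk1⟩ := exists_k1 v hv hnc
  obtain ⟨e, D, κ0, hκ0⟩ := exists_cpt v hv
  refine ⟨D + 1, fun G hG => ?_⟩
  have h20 : (2 : M0) ^ k1 ≠ 0 := pow_ne_zero _ two_ne_zero
  obtain ⟨L, _, _, hNF, κ, hκF, hκW⟩ := descendC F
    (MvPolynomial.rename Sum.inl G * (MvPolynomial.X (Sum.inr j1) - MvPolynomial.X (Sum.inl j1)))
      M0 e κ0
    (fun i t ht => by
      rw [hκ0 t ht]
      exact hvF _ (Ideal.subset_span ⟨i, rfl⟩) t ht) k1 (by
    rw [hκ0 _ one_ne_zero, hκ0 _ h20, map_mul, MvPolynomial.aeval_rename, map_sub,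
      MvPolynomial.aeval_X, MvPolynomial.aeval_X]
    simp only [Sum.elim_comp_inl, Sum.elim_inr, Sum.elim_inl]
    exact mul_ne_zero (hvG G hG) (sub_ne_zero.mpr hk1))
  rw [map_mul, MvPolynomial.aeval_rename, map_sub, MvPolynomial.aeval_X,
    MvPolynomial.aeval_X] at hκW
  simp only [Sum.elim_comp_inl, Sum.elim_inr, Sum.elim_inl] at hκW
  obtain ⟨h1, h2⟩ := inf_orbit (Set.range F) {G} e κ (by
    rintro _ ⟨i, rfl⟩
    exact hκF i) ⟨G, rfl, left_ne_zero_of_mul hκW⟩ k1 j1
      (sub_ne_zero.mp (right_ne_zero_of_mul hκW))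
  exact ⟨L, inferInstance, hNF, inferInstance, _, _, _, h1, h2⟩

/-- **Converse for nonconstant punctured lines over number fields.** -/
theorem conv_noGm {k : Type} [Field k] {N : ℕ}
    (F : Fin N → MvPolynomial (Fin n) k) (h : ¬ NoGmCurve F) :
    ∃ (r : ℕ) (L : Type) (_ : Field L) (_ : NumberField L) (_ : Algebra k L)
        (ρ : Multiplicative ℤ →* Matrix.GeneralLinearGroup (Fin r) L)
        (M : Matrix (Fin n) (Fin r) L) (v : Fin r → L),
        OnV (Set.range F) M ρ v ∧
          (offSet ({1} : Set (MvPolynomial (Fin n) k)) M ρ v).Infinite := by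
  classical
  unfold NoGmCurve at h
  push Not at h
  obtain ⟨L, iF, iN, iA, v, hv, hF, t, s, ht, hs, hne⟩ := h
  obtain ⟨k1, j1, hk1⟩ := exists_k1 v hv ⟨t, s, ht, hs, hne⟩
  obtain ⟨e, D, κ, hκ⟩ := exists_cpt v hv
  have h20 : (2 : L) ^ k1 ≠ 0 := pow_ne_zero _ two_ne_zero
  obtain ⟨h1, h2⟩ := inf_orbit (k := k) (Set.range F) {1} e κ (by
    rintro _ ⟨i, rfl⟩ t ht
    rw [hκ t ht]
    exact hF i t ht) ⟨1, rfl, by rw [map_one]; exact one_ne_zero⟩ k1 j1 (by
      rw [hκ _ h20, hκ _ one_ne_zero]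
      exact hk1)
  exact ⟨D + 1, L, iF, iN, iA, _, _, _, h1, h2⟩

end Pool.Agent.Y377.AO
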