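import Mathlib
import Pool.Agent.Y377.AO.Conn

set_option autoImplicit false

/-! # The same for pairs of closed subsets over the ring of integers -/

namespace Pool.Agent.Y377.AO

open Pool.Agent.W235.RM Pool.Agent.H533R3.SL Pool.Agent.Y215.AF
open scoped NumberField

variable {n : ℕ}

/-- the polynomials over the field -/
def mapS {K : Type} [Field K] {ι : Type} (F : ι → MvPolynomial (Fin n) (𝓞 K)) :
    Set (MvPolynomial (Fin n) K) :=
  Set.range fun i => MvPolynomial.map (algebraMap (𝓞 K) K) (F i)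

theorem aeval_mapS {K : Type} [Field K] {L : Type} [Field L] [Algebra K L]
    (y : Fin n → L) (p : MvPolynomial (Fin n) (𝓞 K)) :
    MvPolynomial.aeval y (MvPolynomial.map (algebraMap (𝓞 K) K) p) =
      MvPolynomial.eval₂ ((algebraMap K L).comp (algebraMap (𝓞 K) K)) y p := by
  rw [MvPolynomial.aeval_def, MvPolynomial.eval₂_map]

theorem totalDegree_map_le' {R S : Type} [CommRing R] [CommRing S] (f : R →+* S)
    (p : MvPolynomial (Fin n) R) : (MvPolynomial.map f p).totalDegree ≤ p.totalDegree :=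
  Finset.sup_mono (MvPolynomial.support_map_subset f p)

theorem acond_of_noLaurent {K : Type} [Field K] [NumberField K] {ι κ : Type} [Finite ι]
    (F : ι → MvPolynomial (Fin n) (𝓞 K)) (G : κ → MvPolynomial (Fin n) (𝓞 K))
    (hn : ¬ HasLaurent F G) (R : ℕ) : ACond (mapS F) (mapS G) R := by
  classical
  intro L _ _ p B S hSR hS hF hG
  have hchar : CharZero L := charZero_of_injective_algebraMap (FaithfulSMul.algebraMap_injective K L)
  obtain ⟨c, l, hl, h1, h0, hsum⟩ := exists_homC p B S hS R hSR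
  by_contra hcon
  push Not at hcon
  obtain ⟨i, hi⟩ := hcon
  obtain ⟨G', ⟨l0, rfl⟩, hGne⟩ := hG
  have hfi : Fintype ι := Fintype.ofFinite ι
  let d : ℕ := Finset.univ.sup fun i => (F i).totalDegree
  have hd : ∀ i, (F i).totalDegree ≤ d := fun i =>
    Finset.le_sup (f := fun i => (F i).totalDegree) (Finset.mem_univ i)
  apply hn
  refine laurent_of_cur F G d hd (G l0).totalDegree l0 le_rfl L (homC c) l ?_ ?_ ?_ ?_
  · intro j a hja
    revert hja
    refine Fin.cases ?_ (fun j => ?_) j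
    · refine Fin.cases ?_ (fun a => ?_) a
      · intro h
        exact absurd (Or.inl rfl) h
      · intro _
        simp [homC]
    · refine Fin.cases ?_ (fun a => ?_) a
      · intro _
        simp [homC]
      · intro h
        exact absurd (Or.inr ⟨Fin.succ_ne_zero _, Fin.succ_ne_zero _⟩) h
  · intro j
    have h2 := hmg_cur (MvPolynomial.map (algebraMap (𝓞 K) K) (F j)) d
      ((totalDegree_map_le' _ _).trans (hd j)) p B c l h1 h0 (hF _ ⟨j, rfl⟩)
    refine eq_zero_of_eval _ fun s hs => ?_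
    have h3 := congrArg (fun q : Polynomial L => q.eval s) h2
    simp only [Polynomial.eval_zero] at h3
    rw [Pool.Agent.Y215.AF.aeval_eval] at h3 ⊢
    have hsB : s ^ (l 0) ≠ 0 := pow_ne_zero _ hs
    rw [cur_eval_lc c l s hs] at h3 ⊢
    rw [MvPolynomial.aeval_def, hmg_eval _ d _ ((totalDegree_map_le' _ _).trans (hd j)),
      MvPolynomial.eval₂_map] at h3
    rw [hK_eval d (F j) (hd j)]
    exact h3
  · refine ⟨i.succ, 0, ?_⟩
    rw [h1, h0, (sum_homC c).1, (sum_homC c).2, hsum, Polynomial.C_1, mul_one]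
    exact hi
  · have h2 : (fun i => ∑ j, homC c j i) = (Fin.cons (1 : L) (fun a => 1 * (p a).eval 1) :
        Fin (n + 1) → L) := by
      rw [homC_sum]
      congr 1
      funext a
      rw [one_mul, hsum]
    rw [map_mul, MvPolynomial.aeval_X, (sum_homC c).1, one_mul, h2,
      hK_eval _ (G l0) le_rfl, one_pow, one_mul]
    rw [aeval_mapS] at hGne
    exact hGne

theorem conv_hasLaurent {K : Type} [Field K] {ι κ : Type}
    (F : ι → MvPolynomial (Fin n) (𝓞 K)) (G : κ → MvPolynomial (Fin n) (𝓞 K))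
    (h : HasLaurent F G) :
    ∃ (r : ℕ) (L : Type) (_ : Field L) (_ : NumberField L) (_ : Algebra K L)
        (ρ : Multiplicative ℤ →* Matrix.GeneralLinearGroup (Fin r) L)
        (M : Matrix (Fin n) (Fin r) L) (v : Fin r → L),
        OnV (mapS F) M ρ v ∧ (offSet (mapS G) M ρ v).Infinite := by
  classical
  obtain ⟨L, iF, iN, iA, v, hv, hvF, ⟨l, hl⟩, k1, j1, hk1⟩ := h
  obtain ⟨e, D, κ, hκ⟩ := exists_cpt v hv
  have h20 : (2 : L) ^ k1 ≠ 0 := pow_ne_zero _ two_ne_zero
  obtain ⟨h1, h2⟩ := inf_orbit (k := K) (mapS F) (mapS G) e κ (by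
    rintro _ ⟨i, rfl⟩ t ht
    rw [hκ t ht, aeval_mapS]
    exact hvF i t ht) ⟨_, ⟨l, rfl⟩, by
      rw [hκ _ one_ne_zero, aeval_mapS]
      exact hl⟩ k1 j1 (by
      rw [hκ _ h20, hκ _ one_ne_zero]
      exact hk1)
  exact ⟨D + 1, L, iF, iN, iA, _, _, _, h1, h2⟩

end Pool.Agent.Y377.AO
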