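import Mathlib
import Pool.Agent.TH717.GO.UE
import Pool.Agent.TH717.GO.Hyb2
import Pool.Agent.Y719.SU.Main

set_option autoImplicit false

/-! # Orbits of groups of matrices on projective varieties outside a closed subset -/

namespace Pool.Agent.Y377.AO

open Pool.Agent.TH717.GO Pool.Agent.Y719.SU Pool.Agent.H533R3.SL
open scoped NumberField LinearAlgebra.Projectivization

variable {N : ℕ} {K : Type} [Field K]

/-- the forms in the ideal -/
def Forms (I : Ideal (MvPolynomial (Fin (N + 1)) K)) : Set (MvPolynomial (Fin (N + 1)) K) :=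
  {F | F ∈ I ∧ ∃ d, F.IsHomogeneous d}

/-- rational curves outside `Z` over number fields and curves over arbitrary fields -/
theorem curCond_of_noRatNF [NumberField K] {I I' : Ideal (MvPolynomial (Fin (N + 1)) K)}
    (h : NoRatNF I I') {G : MvPolynomial (Fin (N + 1)) K} (hG : G ∈ I')
    (hGh : ∃ d, G.IsHomogeneous d) (R : ℕ) : CurCond (Forms I) G R := by
  classical
  intro L _ _ p S _ _ hF hGne i i'
  by_contra hne
  set N' : ℕ := Finset.univ.sup (fun i => (p i).natDegree) + 1 with hN
  have hNc : ∀ i m, N' ≤ m → (p i).coeff m = 0 := by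
    intro i m hm
    apply Polynomial.coeff_eq_zero_of_natDegree_lt
    have := Finset.le_sup (f := fun i => (p i).natDegree) (Finset.mem_univ i)
    omega
  obtain ⟨K', iK, iN, iAK, w, h1, h2, h3⟩ := Pool.Agent.TH409.SH.specialise K L p (Forms I) hF N'
    hNc ⟨i, i', hne⟩ G hGne
  let q : Fin (N + 1) → Polynomial K' := cur w (fun j => (j : ℕ))
  have hae : ∀ F : MvPolynomial (Fin (N + 1)) K,
      MvPolynomial.eval₂ (Polynomial.C.comp (algebraMap K K')) q F = MvPolynomial.aeval q F := by
    intro F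
    rw [MvPolynomial.aeval_def]
    rfl
  refine h K' q ⟨?_, ⟨G, hG, hGh, ?_⟩, ?_⟩
  · intro F hF hFh
    rw [hae]
    exact h1 F ⟨hF, hFh⟩
  · rw [hae]
    intro h0
    apply h3
    have h4 := MvPolynomial.comp_aeval_apply (R := K) q
      ((Polynomial.aeval (1 : K') : Polynomial K' →ₐ[K'] K').restrictScalars K) G
    have h5 : MvPolynomial.aeval (fun i => (q i).eval 1) G = (MvPolynomial.aeval q G).eval 1 :=
      h4.symm
    have h6 : (fun i => Polynomial.eval 1 (cur w (fun j => (j : ℕ)) i)) = fun i => (q i).eval 1 :=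
      rfl
    rw [h6, h5, h0, Polynomial.eval_zero]
  · by_contra hcon
    push Not at hcon
    obtain ⟨a, b, hab⟩ := h2
    apply hab
    show q a * Polynomial.C ((q b).eval 1) = q b * Polynomial.C ((q a).eval 1)
    ext m
    rw [Polynomial.coeff_mul_C, Polynomial.coeff_mul_C, Polynomial.eval_eq_sum_range,
      Polynomial.eval_eq_sum_range]
    have h7 : ∀ (c : Fin (N + 1)) (D : ℕ), (q c).natDegree ≤ D →
        ∑ j ∈ Finset.range ((q c).natDegree + 1), (q c).coeff j * 1 ^ j =
        ∑ j ∈ Finset.range (D + 1), (q c).coeff j := by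
      intro c D hD
      rw [← Finset.sum_subset (Finset.range_mono (Nat.succ_le_succ hD)) (fun j _ hj => ?_)]
      · exact Finset.sum_congr rfl fun j _ => by rw [one_pow, mul_one]
      · apply Polynomial.coeff_eq_zero_of_natDegree_lt
        simpa using hj
    rw [h7 b (max (q a).natDegree (q b).natDegree) (le_max_right _ _),
      h7 a (max (q a).natDegree (q b).natDegree) (le_max_left _ _), Finset.mul_sum, Finset.mul_sum]
    refine Finset.sum_congr rfl fun j _ => ?_
    rw [hcon a b m j]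

variable {L : Type} [Field L] [Algebra K L] {H : Type} [Group H] {r : ℕ}

/-- **Constancy along the cosets** -/
theorem const_off [NumberField K] {I I' : Ideal (MvPolynomial (Fin (N + 1)) K)}
    (h : NoRatNF I I') (M : Matrix (Fin (N + 1)) (Fin r) L)
    (ρ : H →* Matrix.GeneralLinearGroup (Fin r) L) (v : Fin r → L)
    (hX : ∀ h, OnI (algebraMap K L) I (orb M ρ v h)) (x : H) (hx : x ∈ NN ρ) (g : H)
    (hg : ¬ OnI (algebraMap K L) I' (orb M ρ v g)) (i i' : Fin (N + 1)) :
    orb M ρ v (g * x) i * orb M ρ v g i' = orb M ρ v (g * x) i' * orb M ρ v g i := by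
  unfold OnI at hg
  push Not at hg
  obtain ⟨G, hG, hGh, hne⟩ := hg
  refine neat_const (Forms I) (fun F hF => hF.2) G hGh (curCond_of_noRatNF h hG hGh (r * r)) M ρ v
    ?_ x hx g ?_ i i'
  · intro g F hF
    exact hX g F hF.1 hF.2
  · exact hne

/-- counting -/
theorem encard_off_le (I' : Ideal (MvPolynomial (Fin (N + 1)) K)) [NumberField K]
    (M : Matrix (Fin (N + 1)) (Fin r) L) (ρ : H →* Matrix.GeneralLinearGroup (Fin r) L)
    (v : Fin r → L) {T : Type} [Finite T] (red : H → T)
    (hkey : ∀ g g' : H, red g = red g' → ¬ OnI (algebraMap K L) I' (orb M ρ v g) →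
      ∀ i i', orb M ρ v g' i * orb M ρ v g i' = orb M ρ v g' i' * orb M ρ v g i) :
    (orbitPts M ρ v \ Pts L I').encard ≤ Nat.card T := by
  classical
  have hsel : ∀ P : ℙ L (Fin (N + 1) → L), ∃ h : H, P ∈ orbitPts M ρ v \ Pts L I' →
      ∃ h0 : orb M ρ v h ≠ 0, ¬ OnI (algebraMap K L) I' (orb M ρ v h) ∧
        P = Projectivization.mk L (orb M ρ v h) h0 := by
    intro P
    by_cases hP : P ∈ orbitPts M ρ v \ Pts L I'
    · obtain ⟨⟨h, h0, h1⟩, h2⟩ := hP
      refine ⟨h, fun _ => ⟨h0, fun h3 => h2 ?_, h1⟩⟩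
      rw [h1]
      exact (mem_pts h0).2 h3
    · exact ⟨1, fun h => absurd h hP⟩
  choose sel hsel using hsel
  have hinj : Set.InjOn (fun P => red (sel P)) (orbitPts M ρ v \ Pts L I') := by
    intro P hP P' hP' heq
    obtain ⟨h0, hG, hPe⟩ := hsel P hP
    obtain ⟨h0', hG', hPe'⟩ := hsel P' hP'
    have hk := hkey (sel P) (sel P') heq hG
    rw [hPe, hPe', Projectivization.mk_eq_mk_iff']
    obtain ⟨i0, hi0⟩ : ∃ i, orb M ρ v (sel P') i ≠ 0 := by
      by_contra hcon
      push Not at hcon
      exact h0' (funext hcon)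
    refine ⟨orb M ρ v (sel P) i0 / orb M ρ v (sel P') i0, funext fun i => ?_⟩
    rw [Pi.smul_apply, smul_eq_mul, div_mul_eq_mul_div, div_eq_iff hi0]
    have := hk i i0
    linear_combination this
  calc (orbitPts M ρ v \ Pts L I').encard ≤ (Set.univ : Set T).encard :=
        Set.encard_le_encard_of_injOn (fun _ _ => Set.mem_univ _) hinj
    _ = Nat.card T := by
        have h1 : Fintype T := Fintype.ofFinite _
        rw [Set.encard_univ, ENat.card_eq_coe_fintype_card, Nat.card_eq_fintype_card]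

/-- one element whose class is neat -/
theorem neat_mem {ρ : H →* Matrix.GeneralLinearGroup (Fin r) L} {h : H} (hh : NeatEl ρ h) :
    h ∈ NN ρ := Subgroup.subset_closure hh

theorem off_bound [NumberField K] {I I' : Ideal (MvPolynomial (Fin (N + 1)) K)}
    (h : NoRatNF I I') (M : Matrix (Fin (N + 1)) (Fin r) L)
    (ρ : H →* Matrix.GeneralLinearGroup (Fin r) L) (v : Fin r → L)
    (hX : ∀ h, OnI (algebraMap K L) I (orb M ρ v h)) {T : Type} [Finite T] (red : H → T)
    (hred : ∀ g g' : H, red g = red g' → g⁻¹ * g' ∈ NN ρ) :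
    (orbitPts M ρ v \ Pts L I').encard ≤ Nat.card T := by
  refine encard_off_le I' M ρ v red fun g g' hgg hg i i' => ?_
  have h1 := const_off h M ρ v hX (g⁻¹ * g') (hred g g' hgg) g hg i i'
  rwa [mul_inv_cancel_left] at h1

/-- **The uniform bound for arbitrary groups.** -/
theorem uni_off [NumberField K] [CharZero L] {I I' : Ideal (MvPolynomial (Fin (N + 1)) K)}
    (h : NoRatNF I I') {D : ℕ} (hD : SpecDeg L D) (M : Matrix (Fin (N + 1)) (Fin r) L)
    (ρ : H →* Matrix.GeneralLinearGroup (Fin r) L) (v : Fin r → L)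
    (hX : ∀ h, OnI (algebraMap K L) I (orb M ρ v h)) :
    (orbitPts M ρ v \ Pts L I').encard ≤ bd r D := by
  classical
  by_contra hcon
  push Not at hcon
  obtain ⟨T, hT, hTc⟩ := Set.exists_subset_encard_eq (s := orbitPts M ρ v \ Pts L I')
    (k := ((bd r D + 1 : ℕ) : ℕ∞)) (by
      have := Order.add_one_le_of_lt hcon
      exact_mod_cast this)
  have hTfin : T.Finite := Set.finite_of_encard_eq_coe hTc
  have hsel : ∀ P : ℙ L (Fin (N + 1) → L), ∃ h : H, P ∈ T →
      ∃ h0 : orb M ρ v h ≠ 0, P = Projectivization.mk L (orb M ρ v h) h0 := by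
    intro P
    by_cases hP : P ∈ T
    · obtain ⟨⟨h, h0, h1⟩, -⟩ := hT hP
      exact ⟨h, fun _ => ⟨h0, h1⟩⟩
    · exact ⟨1, fun h => absurd h hP⟩
  choose sel hsel using hsel
  let H' : Subgroup H := Subgroup.closure (sel '' T)
  have hfg : Group.FG H' := by
    rw [Group.fg_iff_subgroup_fg]
    exact ⟨(hTfin.image sel).toFinset, by rw [Set.Finite.coe_toFinset]⟩
  obtain ⟨h0, hdvd⟩ := NN_index_bd hD hfg (ρ.comp H'.subtype)
  have hfin : Finite (H' ⧸ NN (ρ.comp H'.subtype)) := by
    have : (NN (ρ.comp H'.subtype)).FiniteIndex := ⟨h0⟩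
    infer_instance
  have hb := off_bound (I' := I') h M (ρ.comp H'.subtype) v (fun g => hX g)
    (T := H' ⧸ NN (ρ.comp H'.subtype)) (fun g => (g : H' ⧸ NN (ρ.comp H'.subtype)))
    (fun g g' hgg => QuotientGroup.eq.1 hgg)
  have hsub : T ⊆ orbitPts M (ρ.comp H'.subtype) v \ Pts L I' := by
    intro P hP
    obtain ⟨h1, h2⟩ := hsel P hP
    exact ⟨⟨⟨sel P, Subgroup.subset_closure ⟨P, hP, rfl⟩⟩, h1, h2⟩, (hT hP).2⟩
  have h3 := (Set.encard_le_encard hsub).trans hb
  rw [hTc, ← Subgroup.index_eq_card] at h3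
  have h4 : bd r D + 1 ≤ (NN (ρ.comp H'.subtype)).index := by exact_mod_cast h3
  have h5 := Nat.le_of_dvd (bd_pos r D) hdvd
  omega

/-- **Orbits over a ring with two residue fields.** -/
theorem two_off [NumberField K] {I I' : Ideal (MvPolynomial (Fin (N + 1)) K)}
    (h : NoRatNF I I') (A : Subring L)
    {F₁ F₂ : Type} [Field F₁] [Field F₂] [Finite F₁] [Finite F₂] (φ₁ : A →+* F₁) (φ₂ : A →+* F₂)
    (hne : ringChar F₁ ≠ ringChar F₂)
    (ρ : H →* Matrix.GeneralLinearGroup (Fin r) A) (M : Matrix (Fin (N + 1)) (Fin r) L)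
    (v : Fin r → L)
    (hX : ∀ h, OnI (algebraMap K L) I
      (orb M ((Matrix.GeneralLinearGroup.map A.subtype).comp ρ) v h)) :
    (orbitPts M ((Matrix.GeneralLinearGroup.map A.subtype).comp ρ) v \ Pts L I').encard ≤
      (Nat.card (Matrix.GeneralLinearGroup (Fin r) F₁) *
        Nat.card (Matrix.GeneralLinearGroup (Fin r) F₂) : ℕ) := by
  have hbound := off_bound (I' := I') h M ((Matrix.GeneralLinearGroup.map A.subtype).comp ρ) v hX
    (T := Matrix.GeneralLinearGroup (Fin r) F₁ × Matrix.GeneralLinearGroup (Fin r) F₂)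
    (fun h => (Matrix.GeneralLinearGroup.map φ₁ (ρ h), Matrix.GeneralLinearGroup.map φ₂ (ρ h))) (by
      intro g g' hgg
      have h1 : ∀ (F : Type) [Field F] (φ : A →+* F),
          Matrix.GeneralLinearGroup.map φ (ρ g) = Matrix.GeneralLinearGroup.map φ (ρ g') →
          Matrix.GeneralLinearGroup.map φ (ρ (g⁻¹ * g')) = 1 := by
        intro F _ φ h
        rw [map_mul, map_mul, map_inv, map_inv, h, inv_mul_cancel]
      exact neat_mem (ρ := ext A ρ) (ker_two_neat A φ₁ φ₂ hne ρ (g⁻¹ * g')
        (h1 F₁ φ₁ (Prod.ext_iff.1 hgg).1) (h1 F₂ φ₂ (Prod.ext_iff.1 hgg).2)))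
  rwa [Nat.card_prod] at hbound

/-- reduction modulo `p` of a group of `p`-integral matrices -/
theorem exists_red_pint [NumberField L] (p : ℕ) (hp : p.Prime) (hp3 : 3 ≤ p)
    (ρ : H →* Matrix.GeneralLinearGroup (Fin r) L)
    (hρ : ∀ h i j, PInt p ((ρ h : Matrix (Fin r) (Fin r) L) i j)) :
    ∃ (T : Type) (_ : Finite T) (red : H → T),
      Nat.card T = p ^ (Module.finrank ℚ L * r ^ 2) ∧
      ∀ g g' : H, red g = red g' → g⁻¹ * g' ∈ NN ρ := by
  classical
  let I : Ideal (𝓞 L) := Ideal.span {(p : 𝓞 L)}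
  have hcard : Nat.card (𝓞 L ⧸ I) = p ^ Module.finrank ℚ L := card_quot p
  have hfin : Finite (𝓞 L ⧸ I) := Nat.finite_of_card_ne_zero (by
    rw [hcard]
    exact pow_ne_zero _ hp.ne_zero)
  choose y c hc hyc using fun (h : H) (i j : Fin r) =>
    exists_red hp ((ρ h : Matrix (Fin r) (Fin r) L) i j) (hρ h i j)
  let red : H → (Fin r → Fin r → 𝓞 L ⧸ I) := fun h i j => Ideal.Quotient.mk I (y h i j)
  have hred : ∀ g g' : H, red g = red g' → ∃ D : Matrix (Fin r) (Fin r) L,
      (∀ i j, PInt p (D i j)) ∧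
      (ρ g' : Matrix (Fin r) (Fin r) L) = (ρ g : Matrix (Fin r) (Fin r) L) + (p : L) • D := by
    intro g g' h
    have h1 : ∀ i j, ∃ z : 𝓞 L, y g' i j - y g i j = p * z := by
      intro i j
      have h2 : Ideal.Quotient.mk I (y g' i j) = Ideal.Quotient.mk I (y g i j) :=
        (congrFun (congrFun h i) j).symm
      rw [Ideal.Quotient.eq, Ideal.mem_span_singleton] at h2
      exact h2
    choose z hz using h1
    refine ⟨Matrix.of fun i j => (z i j : L) + (c g' i j + -c g i j), fun i j => ?_, ?_⟩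
    · rw [Matrix.of_apply]
      exact (PInt.of_int hp (z i j).2).add hp ((hc g' i j).add hp ((hc g i j).neg hp))
    · ext i j
      rw [Matrix.add_apply, Matrix.smul_apply, smul_eq_mul, Matrix.of_apply, hyc g' i j,
        hyc g i j]
      have h3 : (y g' i j : L) - y g i j = p * z i j := by
        have := congrArg (fun a : 𝓞 L => (a : L)) (hz i j)
        simpa using this
      linear_combination h3
  have hneat : ∀ (g g' : H) (D : Matrix (Fin r) (Fin r) L), (∀ i j, PInt p (D i j)) →
      (ρ g' : Matrix (Fin r) (Fin r) L) = (ρ g : Matrix (Fin r) (Fin r) L) + (p : L) • D →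
      NeatEl ρ (g⁻¹ * g') := by
    intro g g' D hD hgg
    let L' := AlgebraicClosure L
    let φ : L →+* L' := algebraMap L L'
    let h : H := g⁻¹ * g'
    have hmul : ∀ a b : H, (ρ (a * b) : Matrix (Fin r) (Fin r) L) =
        (ρ a : Matrix (Fin r) (Fin r) L) * (ρ b : Matrix (Fin r) (Fin r) L) := fun a b => by
      rw [map_mul, Units.val_mul]
    have hone : (ρ 1 : Matrix (Fin r) (Fin r) L) = 1 := by rw [map_one, Units.val_one]
    let Bh : Matrix (Fin r) (Fin r) L := (ρ g⁻¹ : Matrix (Fin r) (Fin r) L) * D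
    let Bh' : Matrix (Fin r) (Fin r) L := -((ρ g'⁻¹ : Matrix (Fin r) (Fin r) L) * D)
    have hh : (ρ h : Matrix (Fin r) (Fin r) L) = 1 + (p : L) • Bh := by
      show (ρ (g⁻¹ * g') : Matrix (Fin r) (Fin r) L) = _
      rw [hmul, hgg, mul_add, ← hmul, inv_mul_cancel, hone, Matrix.mul_smul]
    have hh' : (ρ h⁻¹ : Matrix (Fin r) (Fin r) L) = 1 + (p : L) • Bh' := by
      have h1 : h⁻¹ = g'⁻¹ * g := by simp [h]
      have h2 : (ρ g : Matrix (Fin r) (Fin r) L) =
          (ρ g' : Matrix (Fin r) (Fin r) L) - (p : L) • D := by rw [hgg]; abel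
      rw [h1, hmul, h2, mul_sub, ← hmul, inv_mul_cancel, hone, Matrix.mul_smul]
      show _ = 1 + (p : L) • (-((ρ g'⁻¹ : Matrix (Fin r) (Fin r) L) * D))
      rw [smul_neg]
      abel
    have hBh : ∀ i j, PInt p (Bh i j) := fun i j => by
      show PInt p (((ρ g⁻¹ : Matrix (Fin r) (Fin r) L) * D) i j)
      rw [Matrix.mul_apply]
      exact PInt.sum hp _ _ fun a _ => (hρ _ _ _).mul hp (hD _ _)
    have hBh' : ∀ i j, PInt p (Bh' i j) := fun i j => by
      show PInt p (-(((ρ g'⁻¹ : Matrix (Fin r) (Fin r) L) * D) i j))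
      refine PInt.neg hp ?_
      rw [Matrix.mul_apply]
      exact PInt.sum hp _ _ fun a _ => (hρ _ _ _).mul hp (hD _ _)
    have hmap : ∀ C : Matrix (Fin r) (Fin r) L,
        ((1 : Matrix (Fin r) (Fin r) L) + (p : L) • C).map φ = 1 + (p : L') • C.map φ := by
      intro C
      have h1 : ((1 : Matrix (Fin r) (Fin r) L) + (p : L) • C).map φ =
          φ.mapMatrix (1 + (p : L) • C) := rfl
      rw [h1, map_add, map_one]
      congr 1
      ext a b
      simp
    refine ⟨UU hp L', UU_torsionFree hp hp3, fun μ w hw0 hw => ?_⟩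
    refine eig_mem_UU (L := L') hp ((ρ h : Matrix (Fin r) (Fin r) L).map φ)
      ((ρ h⁻¹ : Matrix (Fin r) (Fin r) L).map φ) (Bh.map φ) (Bh'.map φ) (by
        rw [← Matrix.map_mul, ← hmul, inv_mul_cancel, hone]
        exact Matrix.map_one φ (map_zero φ) (map_one φ)) (by rw [hh, hmap]) (by rw [hh', hmap])
        (fun i j => (hBh i j).map φ) (fun i j => (hBh' i j).map φ) μ ?_
    refine Module.End.hasEigenvalue_of_hasEigenvector (x := w)
      (Module.End.hasEigenvector_iff.2 ⟨Module.End.mem_eigenspace_iff.2 ?_, hw0⟩)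
    rw [Matrix.toLinAlgEquiv'_apply]
    exact hw
  refine ⟨_, inferInstance, red, ?_, fun g g' hgg => ?_⟩
  · have h2 : Fintype (𝓞 L ⧸ I) := Fintype.ofFinite _
    rw [Nat.card_eq_fintype_card, Fintype.card_fun, Fintype.card_fun, Fintype.card_fin,
      ← Nat.card_eq_fintype_card, hcard, ← pow_mul, ← pow_mul]
    congr 1
    ring
  · obtain ⟨D, hD, hDe⟩ := hred g g' hgg
    exact neat_mem (hneat g g' D hD hDe)

/-- a nonconstant rational curve over a number field, not in `Z`, gives an infinite orbit of a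
cyclic group outside `Z` -/
theorem inf_off {L : Type} [Field L] [NumberField L] [NumberField K] [Algebra K L]
    {I I' : Ideal (MvPolynomial (Fin (N + 1)) K)} {p : Fin (N + 1) → Polynomial L}
    (hp : Pool.Agent.TH143.HE.RCur (algebraMap K L) I I' p) :
    ∃ (r : ℕ) (ρ : Multiplicative ℤ →* Matrix.GeneralLinearGroup (Fin r) L)
      (M : Matrix (Fin (N + 1)) (Fin r) L) (v : Fin r → L),
      (∀ h, OnI (algebraMap K L) I (orb M ρ v h)) ∧ (orbitPts M ρ v \ Pts L I').Infinite := by
  classical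
  obtain ⟨h1, ⟨G', hG', hGh, hne⟩, hnc⟩ := hp
  obtain ⟨j0, hj0⟩ : ∃ j, p j ≠ 0 := by
    by_contra hcon
    push Not at hcon
    obtain ⟨j, k, i, i', h2⟩ := hnc
    apply h2
    rw [hcon j, hcon k]
  set r : ℕ := (Finset.univ.sup fun j => (p j).natDegree) + 1 with hr
  have hdeg : ∀ j, (p j).natDegree < r := fun j =>
    Nat.lt_succ_of_le (Finset.le_sup (f := fun j => (p j).natDegree) (Finset.mem_univ j))
  let M : Matrix (Fin (N + 1)) (Fin r) L := fun i j => (p i).coeff j
  have horb : ∀ m : Multiplicative ℤ, orb M (dia L r) (fun _ => 1) m =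
      fun i => (p i).eval ((2 : L) ^ (Multiplicative.toAdd m)) := by
    intro m
    funext i
    show ∑ j, M i j * ((Matrix.diagonal fun j : Fin r =>
      ((2 : L) ^ (Multiplicative.toAdd m)) ^ (j : ℕ)).mulVec fun _ => 1) j = _
    rw [Polynomial.eval_eq_sum_range' (hdeg i), ← Fin.sum_univ_eq_sum_range
      (fun k => (p i).coeff k * ((2 : L) ^ (Multiplicative.toAdd m)) ^ k)]
    refine Finset.sum_congr rfl fun j _ => ?_
    rw [Matrix.mulVec_diagonal, mul_one]
  have heval : ∀ (G : MvPolynomial (Fin (N + 1)) K) (t : L),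
      (MvPolynomial.eval₂ (Polynomial.C.comp (algebraMap K L)) p G).eval t =
        MvPolynomial.eval₂ (algebraMap K L) (fun i => (p i).eval t) G := fun G t =>
    Pool.Agent.TH143.HE.eval₂_eval (algebraMap K L) p G t
  refine ⟨r, dia L r, M, fun _ => 1, ?_, ?_⟩
  · intro m G hG hd
    rw [horb, ← heval, h1 G hG hd, Polynomial.eval_zero]
  · intro hfin
    set q0 := MvPolynomial.eval₂ (Polynomial.C.comp (algebraMap K L)) p G' with hq0
    set bad : Set ℕ := {m | (p j0).eval ((2 : L) ^ m) = 0} ∪ {m | q0.eval ((2 : L) ^ m) = 0}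
      with hbad
    have hbadf : bad.Finite := (roots_fin hj0).union (roots_fin hne)
    -- the fibres
    have hfib : ∀ P : ℙ L (Fin (N + 1) → L),
        {m : ℕ | ∃ h : (fun i => (p i).eval ((2 : L) ^ m)) ≠ 0,
        Projectivization.mk L _ h = P}.Finite := by
      intro P
      by_cases hP : ∃ m0 : ℕ, ∃ h : (fun i => (p i).eval ((2 : L) ^ m0)) ≠ 0,
          Projectivization.mk L _ h = P
      · obtain ⟨m0, h0, rfl⟩ := hP
        obtain ⟨k, hk⟩ := Function.ne_iff.1 h0
        simp only [Pi.zero_apply] at hk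
        set x0 : Fin (N + 1) → L := fun i => (p i).eval ((2 : L) ^ m0) with hx0
        obtain ⟨j, hj⟩ : ∃ j, p j * Polynomial.C (x0 k) - Polynomial.C (x0 j) * p k ≠ 0 := by
          by_contra hcon
          push Not at hcon
          obtain ⟨j, j', i, i', h2⟩ := hnc
          apply h2
          have h3 : ∀ j i, (p j).coeff i * x0 k = x0 j * (p k).coeff i := by
            intro j i
            have h4 := congrArg (fun q => Polynomial.coeff q i) (sub_eq_zero.1 (hcon j))
            simp only [Polynomial.coeff_mul_C, Polynomial.coeff_C_mul] at h4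
            exact h4
          have h4 : x0 k ≠ 0 := hk
          apply mul_right_cancel₀ (mul_ne_zero h4 h4)
          calc (p j).coeff i * (p j').coeff i' * (x0 k * x0 k) =
              ((p j).coeff i * x0 k) * ((p j').coeff i' * x0 k) := by ring
            _ = ((p j').coeff i * x0 k) * ((p j).coeff i' * x0 k) := by
                rw [h3 j i, h3 j' i', h3 j' i, h3 j i']
                ring
            _ = _ := by ring
        refine (roots_fin hj).subset ?_
        rintro m ⟨hm, hmk⟩
        rw [Projectivization.mk_eq_mk_iff'] at hmk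
        obtain ⟨c, hc⟩ := hmk
        have h2 : ∀ i, (p i).eval ((2 : L) ^ m) = c * x0 i := fun i => (congrFun hc i).symm
        change Polynomial.eval _ _ = 0
        rw [Polynomial.eval_sub, Polynomial.eval_mul, Polynomial.eval_mul, Polynomial.eval_C,
          Polynomial.eval_C, h2 j, h2 k]
        ring
      · exact Set.finite_empty.subset fun m hm => hP ⟨m, hm⟩
    have hall : (Set.univ : Set ℕ).Finite := by
      refine (hbadf.union (hfin.biUnion fun P _ => hfib P)).subset ?_
      intro m _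
      by_cases hm : m ∈ bad
      · exact Or.inl hm
      · right
        rw [hbad, Set.mem_union, not_or] at hm
        have hx : (fun i => (p i).eval ((2 : L) ^ m)) ≠ 0 := fun h0 => hm.1 (congrFun h0 j0)
        have horbm : orb M (dia L r) (fun _ => 1) (Multiplicative.ofAdd (m : ℤ)) =
            fun i => (p i).eval ((2 : L) ^ m) := by
          rw [horb, toAdd_ofAdd, zpow_natCast]
        rw [Set.mem_iUnion₂]
        refine ⟨Projectivization.mk L _ hx, ⟨⟨Multiplicative.ofAdd (m : ℤ), by rwa [horbm], ?_⟩,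
          fun hc => ?_⟩, hx, rfl⟩
        · congr 1
          exact horbm.symm
        · have h2 := (mem_pts hx).1 hc G' hG' hGh
          apply hm.2
          change Polynomial.eval _ _ = 0
          rw [hq0, heval]
          exact h2
    exact Set.infinite_univ hall

end Pool.Agent.Y377.AO
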